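import Pool.Agent.H35.VMP.NBTb

/-!
# MP_70ba79_ag, board `vmp_modules`: module NBT (choice of columns, second case)
-/

set_option autoImplicit false

namespace Pool.Agent.H35.VMP

open MvPolynomial SC Pool.Agent.H27.LV Pool.Agent.H17.VG Pool.Agent.H30.VM
open Pool.Agent.H17.CI (Tup IlT PQT TxT frmT upT RatT)
open Pool.Agent.H90.VG (opVl opFl wv two_cols exists_extend)

theorem pf_NBT (hSY : Pool.Agent.H30.VM.T_SY) (hWDT : Pool.Agent.H30.VM.T_WDT)
    (hEVT : Pool.Agent.H30.VM.T_EVT) : Pool.Agent.H30.VM.T_NBT := by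
  classical
  intro R k K _ _ _ _ _ _ n s ι _ _ i₀ e F D D' Z x p hp hS hDD hPt Q τ l hτ hfin hξ J hJ
  have hOP := Pool.Agent.H97.VG.op
  have h0S := Sym_zero hSY hS
  obtain ⟨hE1, hE2, hE3, hE4, hE5⟩ := hEVT R K n ι i₀ e F D' Z x hS hPt
  have hDx : (fun i => D' (x i)) = (fun i => D (x i)) := funext fun i => hDD _
  rw [hDx] at hE3
  -- the space of velocities
  obtain ⟨Q0, hQ0⟩ : ∃ Q0 : Fin s → Tup ι K n, Q0 = fun j => Q j.castSucc := ⟨_, rfl⟩
  obtain ⟨τ0, hτ0⟩ : ∃ τ0 : Fin (n + 1) → Fin s → Op R K n, τ0 = fun i j => τ i j.castSucc :=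
    ⟨_, rfl⟩
  rw [← hQ0] at hfin hξ
  have hUt := UtT_PQT hSY hWDT hS x p hp Q0 τ0 (fun i j => l i j.castSucc)
    (fun i j => by rw [hτ0, hQ0]; exact hτ i j.castSucc)
  rw [hDx] at hUt
  have hle : UtT R i₀ F x (PQT x Q0) ≤ TxT Z F x := by
    refine hE5 _ fun G hG i hi => ?_
    unfold PQT at hG
    induction hG using Submodule.span_induction with
    | mem G hG =>
      obtain ⟨ξ, j, hξ', rfl⟩ := hG
      have h1 : eval x (lin ξ) = ∑ i, ξ i * x i := by
        unfold lin
        simp
      rw [map_mul, h1, hξ', zero_mul]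
    | zero => simp
    | add G G' _ _ h h' => rw [Pi.add_apply, map_add, h, h', add_zero]
    | smul a G _ h => rw [Pi.smul_apply, smul_eq_C_mul, map_mul, h, mul_zero]
  have hI' : LinearIndependent K ![(fun i => D (x i)), x] := by
    have h1 : LinearIndependent K ![x, fun i => D (x i)] := hDx ▸ hPt.dx
    rw [LinearIndependent.pair_iff] at h1 ⊢
    intro a b hab
    have := h1 b a ((add_comm _ _).trans hab)
    exact ⟨this.2, this.1⟩
  obtain ⟨T0, hLI, hspan⟩ := exists_extend (wv x p τ0) (fun i => D (x i)) x hI'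
  rw [← hUt] at hspan
  have hcard : T0.card + 2 + Z.card = n := by
    have h1 := finrank_span_eq_card hLI
    rw [hspan] at h1
    rw [h1] at hfin
    refine Eq.trans ?_ hfin
    simp
  have hne : ∀ c ∈ T0, c.1 ≠ p := by
    intro c hc hcp
    have h1 := hLI.ne_zero (Sum.inl (⟨c, hc⟩ : T0))
    apply h1
    simp only [Sum.elim_inl]
    unfold wv
    rw [hcp, hp, one_smul, sub_self]
  obtain ⟨P0, hP0⟩ : ∃ P0 : Finset (Fin (n + 1) × Fin s),
    P0 = Finset.univ.image (fun j : Fin s => (p, j)) := ⟨_, rfl⟩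
  obtain ⟨T, hT⟩ : ∃ T : Finset (Fin (n + 1) × Fin s), T = T0 ∪ P0 := ⟨_, rfl⟩
  have hdisj : Disjoint T0 P0 := by
    rw [Finset.disjoint_left]
    intro c hc hc'
    rw [hP0] at hc'
    obtain ⟨j, _, hj⟩ := Finset.mem_image.1 hc'
    exact hne c hc (by rw [← hj])
  have hP0c : P0.card = s := by
    rw [hP0, Finset.card_image_of_injective _ (fun j j' h => (Prod.mk.inj h).2)]
    simp
  have hTcard : Fintype.card T = T0.card + s := by
    rw [Fintype.card_coe, hT, Finset.card_union_of_disjoint hdisj, hP0c]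
  -- sums over `T`
  have hsumT : ∀ (f : Fin (n + 1) × Fin s → K),
      ∑ c : T, f c = ∑ c : T0, f c + ∑ j : Fin s, f (p, j) := by
    intro f
    rw [Finset.sum_coe_sort T f, Finset.sum_coe_sort T0 f, hT, Finset.sum_union hdisj, hP0,
      Finset.sum_image (fun j _ j' _ h => (Prod.mk.inj h).2)]
  have hcardJ : Fintype.card (((T ⊕ Fin 2) ⊕ Fin 2) ⊕ Z) =
      Fintype.card (Fin (n + 1) ⊕ Fin (s + 1)) := by
    rw [Fintype.card_sum, Fintype.card_sum, Fintype.card_sum, Fintype.card_sum, hTcard,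
      Fintype.card_coe]
    simp only [Fintype.card_fin]
    omega
  obtain ⟨e0⟩ : Nonempty (((T ⊕ Fin 2) ⊕ Fin 2) ⊕ Z ≃ Fin (n + 1) ⊕ Fin (s + 1)) :=
    ⟨Fintype.equivOfCardEq hcardJ⟩
  obtain ⟨A, hA⟩ : ∃ A, A = AA D x (fun c : T => τ c.1.1 c.1.2.castSucc) (fun c : T => c.1.1)
    (fun c : T => c.1.2) (fun a => τ a (Fin.last s)) p J e0 := ⟨_, rfl⟩
  obtain ⟨r0, hr0⟩ : ∃ r0, r0 = e0.symm (Sum.inr (Fin.last s)) := ⟨_, rfl⟩
  have h01 : (Sum.inl (Sum.inl (Sum.inr 0)) : ((T ⊕ Fin 2) ⊕ Fin 2) ⊕ Z) ≠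
      Sum.inl (Sum.inl (Sum.inr 1)) := by simp
  have hvw0 : ∀ w : Fin (n + 1) → K, vw e0 w r0 = 0 := by
    intro w
    rw [hr0, vw, Equiv.apply_symm_apply, Sum.elim_inr]
  -- the linear functional
  obtain ⟨Nf, hNf⟩ : ∃ Nf : (Fin (n + 1) → K) → K, ∀ w, Nf w =
    ((A.updateCol (Sum.inl (Sum.inl (Sum.inr 0))) (Pi.single r0 1)).updateCol
      (Sum.inl (Sum.inl (Sum.inr 1))) (vw e0 w)).det := ⟨_, fun _ => rfl⟩
  have hNadd : ∀ w w', Nf (w + w') = Nf w + Nf w' := by
    intro w w'
    have : vw e0 (w + w') = vw e0 w + vw e0 w' := by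
      funext r
      simp only [vw, Pi.add_apply]
      generalize e0 r = r'
      rcases r' with i | b' <;> simp
    rw [hNf, hNf, hNf, this, Matrix.det_updateCol_add]
  have hNsmul : ∀ (a : K) w, Nf (a • w) = a * Nf w := by
    intro a w
    have : vw e0 (a • w) = a • vw e0 w := by
      funext r
      simp only [vw, Pi.smul_apply]
      generalize e0 r = r'
      rcases r' with i | b' <;> simp
    rw [hNf, hNf, this, Matrix.det_updateCol_smul]
  have hN0 : Nf 0 = 0 := by
    have := hNsmul 0 0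
    simpa using this
  have hNsum : ∀ (f : Fin (n + 1) → Fin (n + 1) → K), Nf (∑ i, f i) = ∑ i, Nf (f i) := by
    intro f
    have : ∀ S : Finset (Fin (n + 1)), Nf (∑ i ∈ S, f i) = ∑ i ∈ S, Nf (f i) := by
      intro S
      induction S using Finset.induction_on with
      | empty => simp [hN0]
      | insert i S hi ih => rw [Finset.sum_insert hi, Finset.sum_insert hi, hNadd, ih]
    exact this _
  have hNne : ∀ w, w ∉ UtT R i₀ F x (PQT x Q0) → w ∈ TxT Z F x → Nf w ≠ 0 := by
    intro w hw hwT h0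
    rw [hNf] at h0
    obtain ⟨v, hv0, hv⟩ := Matrix.exists_mulVec_eq_zero_iff.2 h0
    apply hv0
    rw [hA, hr0] at hv
    obtain ⟨hvc0, hvj, hva⟩ := rows D x _ _ _ _ p J e0 w v hv
    obtain ⟨f, hf'⟩ : ∃ f : Fin (n + 1) × Fin s → K, f = fun c =>
      if h : c ∈ T then v (Sum.inl (Sum.inl (Sum.inl ⟨c, h⟩))) else 0 := ⟨_, rfl⟩
    have hf : ∀ t : T, v (Sum.inl (Sum.inl (Sum.inl t))) = f t := by
      intro t
      rw [hf']
      simp only [dif_pos t.2]
    -- the rows of the families
    have hrj : ∀ j : Fin s, f (p, j) = - ∑ c : T0, if c.1.2 = j then x c.1.1 * f c else 0 := by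
      intro j
      have h1 := hvj j
      simp only [hf] at h1
      have h4 := hsumT (fun c : Fin (n + 1) × Fin s => if c.2 = j then x c.1 * f c else 0)
      rw [h4] at h1
      have h5 : ∑ j' : Fin s, (if j' = j then x p * f (p, j') else 0) = f (p, j) := by
        rw [Finset.sum_ite_eq']
        simp [hp]
      rw [h5] at h1
      linear_combination h1
    obtain ⟨E, hE⟩ : ∃ E : Fin (n + 1) → K, ∀ i, E i =
      ∑ z : Z, if J z = i then v (Sum.inr z) else 0 := ⟨_, fun _ => rfl⟩
    -- the rows of the coordinates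
    have hra : ∑ c : T0, f c • wv x p τ0 c + v (Sum.inl (Sum.inl (Sum.inr 1))) • w +
        v (Sum.inl (Sum.inr 0)) • (fun i => D (x i)) + v (Sum.inl (Sum.inr 1)) • x + E = 0 := by
      funext a
      have h1 := hva a
      simp only [hf] at h1
      have h4 := hsumT (fun c : Fin (n + 1) × Fin s => opV (τ0 c.1 c.2) x a * f c)
      have h4' : ∑ t : T, opV (τ t.1.1 t.1.2.castSucc) x a * f t =
          ∑ t : T, opV (τ0 t.1.1 t.1.2) x a * f t := by rw [hτ0]
      rw [h4', h4] at h1
      have h5 : ∑ j : Fin s, opV (τ0 p j) x a * f (p, j) =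
          - ∑ c : T0, x c.1.1 * f c * opV (τ0 p c.1.2) x a := by
        have h6 : ∀ j : Fin s, opV (τ0 p j) x a * f (p, j)
            = - ∑ c : T0, if c.1.2 = j then x c.1.1 * f c * opV (τ0 p j) x a else 0 := by
          intro j
          rw [hrj, mul_neg, Finset.mul_sum]
          congr 1
          refine Finset.sum_congr rfl fun c _ => ?_
          split_ifs
          · ring
          · ring
        simp only [h6]
        rw [Finset.sum_neg_distrib, Finset.sum_comm]
        congr 1
        refine Finset.sum_congr rfl fun c _ => ?_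
        rw [Finset.sum_ite_eq]
        simp
      rw [h5] at h1
      simp only [Pi.add_apply, Finset.sum_apply, Pi.smul_apply, smul_eq_mul, Pi.zero_apply]
      have h7 : ∑ c : T0, f c * wv x p τ0 c a = ∑ c : T0, opV (τ0 c.1.1 c.1.2) x a * f c -
          ∑ c : T0, x c.1.1 * f c * opV (τ0 p c.1.2) x a := by
        rw [← Finset.sum_sub_distrib]
        refine Finset.sum_congr rfl fun c _ => ?_
        simp only [wv, Pi.sub_apply, Pi.smul_apply, smul_eq_mul]
        ring
      rw [h7, hE]
      linear_combination h1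
    have hwvU : ∀ c, wv x p τ0 c ∈ UtT R i₀ F x (PQT x Q0) := by
      intro c
      rw [hUt]
      exact Submodule.subset_span (Or.inl ⟨_, rfl⟩)
    have hDU : (fun i => D (x i)) ∈ UtT R i₀ F x (PQT x Q0) := by
      rw [hUt]
      exact Submodule.subset_span (Or.inr (Or.inl rfl))
    have hxU : x ∈ UtT R i₀ F x (PQT x Q0) := by
      rw [hUt]
      exact Submodule.subset_span (Or.inr (Or.inr rfl))
    -- the columns of the equations
    have hET : E ∈ TxT Z F x := by
      have h1 : E = -(∑ c : T0, f c • wv x p τ0 c + v (Sum.inl (Sum.inl (Sum.inr 1))) • w +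
          v (Sum.inl (Sum.inr 0)) • (fun i => D (x i)) + v (Sum.inl (Sum.inr 1)) • x) := by
        rw [eq_neg_iff_add_eq_zero, ← hra]
        abel
      rw [h1]
      refine Submodule.neg_mem _ (Submodule.add_mem _ (Submodule.add_mem _
        (Submodule.add_mem _ ?_ ?_) ?_) ?_)
      · exact Submodule.sum_mem _ fun c _ => Submodule.smul_mem _ _ (hle (hwvU _))
      · exact Submodule.smul_mem _ _ hwT
      · exact Submodule.smul_mem _ _ hE3
      · exact Submodule.smul_mem _ _ hE2
    have hz : (fun z : Z => v (Sum.inr z)) = 0 := by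
      refine gJ_inj F x J hJ _ fun i => ?_
      have h1 : ∑ j, E j * eval x (pderiv j (F i)) = 0 := hET i.1 i.2
      refine Eq.trans ?_ h1
      have h2 : ∀ j, E j * eval x (pderiv j (F i)) =
          ∑ z : Z, if J z = j then v (Sum.inr z) * eval x (pderiv j (F i)) else 0 := by
        intro j
        rw [hE, Finset.sum_mul]
        refine Finset.sum_congr rfl fun z _ => ?_
        split_ifs
        · rfl
        · rw [zero_mul]
      simp only [h2]
      rw [Finset.sum_comm]
      refine Finset.sum_congr rfl fun z _ => ?_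
      rw [Finset.sum_ite_eq, if_pos (Finset.mem_univ _)]
      ring
    have hz' : ∀ z : Z, v (Sum.inr z) = 0 := fun z => congrFun hz z
    have hE0 : E = 0 := by
      funext i
      rw [hE, Pi.zero_apply]
      refine Finset.sum_eq_zero fun z _ => ?_
      rw [hz' z]
      split_ifs <;> rfl
    rw [hE0, add_zero] at hra
    have hvc1 : v (Sum.inl (Sum.inl (Sum.inr 1))) = 0 := by
      by_contra hne1
      apply hw
      have h1 : v (Sum.inl (Sum.inl (Sum.inr 1))) • w = -(∑ c : T0, f c • wv x p τ0 c +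
          v (Sum.inl (Sum.inr 0)) • (fun i => D (x i)) + v (Sum.inl (Sum.inr 1)) • x) := by
        rw [eq_neg_iff_add_eq_zero, ← hra]
        abel
      have h2 : v (Sum.inl (Sum.inl (Sum.inr 1))) • w ∈ UtT R i₀ F x (PQT x Q0) := by
        rw [h1]
        refine Submodule.neg_mem _ (Submodule.add_mem _ (Submodule.add_mem _ ?_ ?_) ?_)
        · exact Submodule.sum_mem _ fun c _ => Submodule.smul_mem _ _ (hwvU _)
        · exact Submodule.smul_mem _ _ hDU
        · exact Submodule.smul_mem _ _ hxU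
      exact (Submodule.smul_mem_iff _ hne1).1 h2
    rw [hvc1, zero_smul, add_zero] at hra
    -- linear independence
    rw [Fintype.linearIndependent_iff] at hLI
    have h1 := hLI (Sum.elim (fun c : T0 => f c) ![v (Sum.inl (Sum.inr 0)),
        v (Sum.inl (Sum.inr 1))]) (by
      rw [Fintype.sum_sum_type, Fin.sum_univ_two]
      simp only [Sum.elim_inl, Sum.elim_inr, Matrix.cons_val_zero, Matrix.cons_val_one]
      rw [← add_assoc]
      exact hra)
    have hfT0 : ∀ c ∈ T0, f c = 0 := fun c hc => h1 (Sum.inl ⟨c, hc⟩)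
    have hfp : ∀ j, f (p, j) = 0 := by
      intro j
      rw [hrj, Finset.sum_eq_zero, neg_zero]
      intro c _
      rw [hfT0 c c.2]
      simp
    funext c
    rcases c with ((c | t) | t) | t
    · rw [hf, Pi.zero_apply]
      have hc2 : c.1 ∈ T0 ∪ P0 := hT ▸ c.2
      rcases Finset.mem_union.1 hc2 with hc | hc
      · exact hfT0 c hc
      · rw [hP0] at hc
        obtain ⟨j, _, hj⟩ := Finset.mem_image.1 hc
        rw [← hj]
        exact hfp j
    · rcases (show t = 0 ∨ t = 1 by omega) with rfl | rfl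
      · exact hvc0
      · exact hvc1
    · have h2 := h1 (Sum.inr t)
      rcases (show t = 0 ∨ t = 1 by omega) with rfl | rfl
      · exact h2
      · exact h2
    · exact hz' t
  obtain ⟨Y, hY⟩ : ∃ Y : Fin (n + 1) → K, ∀ i, Y i = Nf (opV (τ i (Fin.last s)) x) :=
    ⟨_, fun _ => rfl⟩
  refine ⟨T, e0, Y, 1, ?_, one_ne_zero, ?_⟩
  · -- independence
    obtain ⟨ξ, hξ0, hξ1⟩ := hξ
    have hx0 : x ≠ 0 := by
      intro h
      rw [h] at hp
      exact zero_ne_one hp
    unfold Indep
    rw [LinearIndependent.pair_iff' hx0]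
    intro a₀ hy0
    have hYi : ∀ i, Y i = a₀ * x i := by
      intro i
      rw [← congrFun hy0 i, Pi.smul_apply, smul_eq_mul]
    have h2 : ∀ i, opVl (R := R) hOP x (ξ i • τ i (Fin.last s)) =
        ξ i • opV (τ i (Fin.last s)) x := by
      intro i
      rw [map_smul]
      rfl
    have h3 : opV (∑ i, ξ i • τ i (Fin.last s)) x = ∑ i, ξ i • opV (τ i (Fin.last s)) x := by
      have h1 := map_sum (opVl (R := R) hOP x) (fun i => ξ i • τ i (Fin.last s)) Finset.univ
      simp only [h2] at h1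
      exact h1
    have h4 := Sym_sum hSY hS.homog h0S Finset.univ ξ (fun i => τ i (Fin.last s))
      (fun i => l i (Fin.last s)) (fun i a => X i * Q (Fin.last s) a)
      (fun i => hτ i (Fin.last s))
    have h5 := hE1 _ _ _ h4
    rw [h3] at h5
    have h6 : ∑ i, ξ i • opV (τ i (Fin.last s)) x ∈ TxT Z F x := by
      refine h5.2 fun i _ => ?_
      rw [Finset.sum_apply, map_sum]
      have h7 : ∀ c, eval x ((ξ c • fun a => X c * Q (Fin.last s) a : Tup ι K n) i) =
          ξ c * x c * eval x (Q (Fin.last s) i) := by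
        intro c
        rw [Pi.smul_apply, smul_eq_C_mul, map_mul, map_mul, eval_C, eval_X]
        ring
      simp only [h7]
      rw [← Finset.sum_mul, hξ0, zero_mul]
    apply hNne _ hξ1 h6
    rw [hNsum]
    have h1 : ∀ i, Nf (ξ i • opV (τ i (Fin.last s)) x) = a₀ * (ξ i * x i) := by
      intro i
      rw [hNsmul, ← hY, hYi]
      ring
    simp only [h1]
    rw [← Finset.mul_sum, hξ0, mul_zero]
  · intro a b
    have hM := M_eq D x (fun c : T => τ c.1.1 c.1.2.castSucc) (fun c : T => c.1.1)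
      (fun c : T => c.1.2) (fun a => τ a (Fin.last s)) p J e0 a b
    rw [hM, ← hA, ← hr0, two_cols A h01 r0 (fun c hc hc' => by
      rw [hA, hr0]
      exact AA_row D x _ _ _ _ p J e0 c hc hc') _ _ (hvw0 _) (hvw0 _), ← hNf, ← hNf, ← hY, ← hY]
    ring

end Pool.Agent.H35.VMP
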