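import Pool.Agent.H30.VM.TargetsB
import Pool.Agent.H30.VM.TargetsD
import Pool.Agent.H90.VG.NB
import Pool.Agent.H97.VG.OP

/-!
# MP_70ba79_ag, board `vmp_modules`: module NBT (choice of columns, second case), part 1
-/

set_option autoImplicit false

namespace Pool.Agent.H35.VMP

open MvPolynomial SC Pool.Agent.H27.LV Pool.Agent.H17.VG Pool.Agent.H30.VM
open Pool.Agent.H17.CI (Tup IlT PQT TxT frmT upT RatT)
open Pool.Agent.H90.VG (opVl opFl wv two_cols exists_extend)

section Lin

variable {R K : Type} [Field R] [Field K] [Algebra R K] {n : ℕ} {ι : Type}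

/-- sums of symbols -/
theorem Sym_sum (hSY : T_SY) {i₀ : ι} {e : ι → ℕ} {F : Tup ι K n}
    (hF : ∀ i, (F i).IsHomogeneous (e i + 1)) (h0 : Sym (R := R) i₀ F 0 0 0) {m : Type} (s : Finset m)
    (ξ : m → K) (τ : m → Op R K n) (l : m → ι → K) (G : m → Tup ι K n)
    (h : ∀ c, Sym i₀ F (τ c) (l c) (G c)) :
    Sym i₀ F (∑ c ∈ s, ξ c • τ c) (∑ c ∈ s, ξ c • l c) (∑ c ∈ s, ξ c • G c) := by
  classical
  induction s using Finset.induction_on with
  | empty => simpa using h0
  | insert c s hc ih =>
    rw [Finset.sum_insert hc, Finset.sum_insert hc, Finset.sum_insert hc]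
    have := (hSY R K n ι i₀ e F _ _ _ _ _ _ (ξ c) 1 hF (h c) ih).1
    simpa using this

theorem Sym_D {i₀ : ι} {e : ι → ℕ} {F : Tup ι K n} {D' : Derivation R K K}
    (hS : SysT i₀ e F D') :
    Sym i₀ F (D', (0 : Matrix (Fin (n + 1)) (Fin (n + 1)) K)) 0 0 := by
  refine ⟨rfl, fun i => ?_⟩
  unfold opF
  simp [hS.base i]

theorem Sym_zero (hSY : T_SY) {i₀ : ι} {e : ι → ℕ} {F : Tup ι K n}
    {D' : Derivation R K K} (hS : SysT i₀ e F D') : Sym (R := R) i₀ F 0 0 0 := by
  have := (hSY R K n ι i₀ e F _ _ _ _ _ _ 0 0 hS.homog (Sym_D hS) (Sym_D hS)).1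
  simpa using this

/-- vectors which, with `D x` and `x`, span the space of velocities -/
theorem UtT_PQT (hSY : T_SY) (hWDT : Pool.Agent.H30.VM.T_WDT) {s : ℕ} {i₀ : ι} {e : ι → ℕ}
    {F : Tup ι K n} {D' : Derivation R K K} (hS : SysT i₀ e F D') (x : Fin (n + 1) → K)
    (p : Fin (n + 1)) (hp : x p = 1)
    (Q : Fin s → Tup ι K n) (τ : Fin (n + 1) → Fin s → Op R K n)
    (l : Fin (n + 1) → Fin s → ι → K)
    (hτ : ∀ i j, Sym i₀ F (τ i j) (l i j) (fun a => X i * Q j a)) :
    UtT R i₀ F x (PQT x Q) =
      Submodule.span K (Set.range (wv x p τ) ∪ {(fun i => D' (x i)), x}) := by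
  have hOP := Pool.Agent.H97.VG.op
  have h0 := Sym_zero hSY hS
  set S := Submodule.span K (Set.range (wv x p τ) ∪ {(fun i => D' (x i)), x}) with hSdef
  have hw : ∀ c, wv x p τ c ∈ S := fun c => Submodule.subset_span (Or.inl ⟨c, rfl⟩)
  have hDx : (fun i => D' (x i)) ∈ S := Submodule.subset_span (Or.inr (Or.inl rfl))
  have hxS : x ∈ S := Submodule.subset_span (Or.inr (Or.inr rfl))
  have key : ∀ G ∈ PQT x Q, ∃ (τ' : Op R K n) (l' : ι → K), Sym i₀ F τ' l' G ∧ opV τ' x ∈ S := by
    intro G hG
    unfold PQT at hG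
    induction hG using Submodule.span_induction with
    | mem G hG =>
      obtain ⟨ξ, j, hξ, rfl⟩ := hG
      refine ⟨∑ i, ξ i • τ i j, ∑ i, ξ i • l i j, ?_, ?_⟩
      · have h1 := Sym_sum hSY hS.homog h0 Finset.univ ξ (fun i => τ i j) (fun i => l i j)
          (fun i a => X i * Q j a) (fun i => hτ i j)
        have h2 : (∑ i, ξ i • fun a => X i * Q j a) = fun a => lin ξ * Q j a := by
          funext a
          rw [Finset.sum_apply]
          unfold lin
          rw [Finset.sum_mul]
          refine Finset.sum_congr rfl fun i _ => ?_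
          rw [Pi.smul_apply, smul_eq_C_mul, mul_assoc]
        rw [h2] at h1
        exact h1
      · have h1 := map_sum (opVl (R := R) hOP x) (fun i => ξ i • τ i j) Finset.univ
        have h2 : ∀ i, opVl (R := R) hOP x (ξ i • τ i j) = ξ i • opV (τ i j) x := by
          intro i
          rw [map_smul]
          rfl
        simp only [h2] at h1
        have h3 : ∑ i, ξ i • opV (τ i j) x = ∑ i, ξ i • wv x p τ (i, j) := by
          have : ∀ i, ξ i • wv x p τ (i, j) =
              ξ i • opV (τ i j) x - (ξ i * x i) • opV (τ p j) x := by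
            intro i
            unfold wv
            rw [smul_sub, smul_smul]
          simp only [this]
          rw [Finset.sum_sub_distrib, ← Finset.sum_smul, hξ, zero_smul, sub_zero]
        rw [show opV (∑ i, ξ i • τ i j) x = _ from h1, h3]
        exact Submodule.sum_mem _ fun i _ => Submodule.smul_mem _ _ (hw _)
    | zero =>
      refine ⟨0, 0, h0, ?_⟩
      rw [show opV (0 : Op R K n) x = 0 from map_zero (opVl (R := R) hOP x)]
      exact Submodule.zero_mem _
    | add G G' _ _ h h' =>
      obtain ⟨t, m, h1, h2⟩ := h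
      obtain ⟨t', m', h1', h2'⟩ := h'
      refine ⟨t + t', m + m', ?_, ?_⟩
      · have := (hSY R K n ι i₀ e F _ _ _ _ _ _ 1 1 hS.homog h1 h1').1
        simpa using this
      · rw [show opV (t + t') x = opV t x + opV t' x from map_add (opVl (R := R) hOP x) t t']
        exact Submodule.add_mem _ h2 h2'
    | smul a G _ h =>
      obtain ⟨t, m, h1, h2⟩ := h
      refine ⟨a • t, a • m, ?_, ?_⟩
      · have := (hSY R K n ι i₀ e F _ _ _ _ _ _ a 0 hS.homog h1 h1).1
        simpa using this
      · rw [show opV (a • t) x = a • opV t x from map_smul (opVl (R := R) hOP x) a t]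
        exact Submodule.smul_mem _ _ h2
  apply le_antisymm
  · unfold UtT
    rw [Submodule.span_le]
    rintro w (⟨t, m, G, hG, ht, rfl⟩ | hw')
    · obtain ⟨t', m', h1, h2⟩ := key _ hG
      obtain ⟨c, hc⟩ := hWDT R K n ι i₀ e F D' hS t t' m m' G ht h1
      rw [hc x]
      exact Submodule.add_mem _ h2 (Submodule.smul_mem _ _ hDx)
    · rw [Set.mem_singleton_iff] at hw'
      rw [hw']
      exact hxS
  · rw [hSdef, Submodule.span_le]
    rintro w (⟨c, rfl⟩ | hw')
    · apply Submodule.subset_span
      left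
      have hs := (hSY R K n ι i₀ e F _ _ _ _ _ _ 1 (-(x c.1)) hS.homog (hτ c.1 c.2) (hτ p c.2)).1
      refine ⟨_, _, _, ?_, hs, ?_⟩
      · have h1 : ((1 : K) • (fun a => X c.1 * Q c.2 a) + (-(x c.1)) • fun a => X p * Q c.2 a :
            Tup ι K n) = fun a => lin (Pi.single c.1 1 - x c.1 • Pi.single p 1) * Q c.2 a := by
          funext a
          rw [Pi.add_apply, Pi.smul_apply, Pi.smul_apply, one_smul, smul_eq_C_mul, ← mul_assoc,
            ← add_mul]
          congr 1
          unfold lin
          have h4 : ∀ j, (C ((Pi.single c.1 1 - x c.1 • Pi.single p 1 : Fin (n + 1) → K) j) :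
              MvPolynomial (Fin (n + 1)) K) * X j = (if j = c.1 then X j else 0) -
                (if j = p then C (x c.1) * X j else 0) := by
            intro j
            rw [Pi.sub_apply, Pi.smul_apply, map_sub, sub_mul, Pi.single_apply, Pi.single_apply]
            congr 1
            · split_ifs <;> simp
            · split_ifs <;> simp
          simp only [h4]
          rw [Finset.sum_sub_distrib, Finset.sum_ite_eq', Finset.sum_ite_eq']
          simp [sub_eq_add_neg]
        rw [h1]
        apply Submodule.subset_span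
        refine ⟨_, c.2, ?_, rfl⟩
        have h4 : ∀ i, (Pi.single c.1 1 - x c.1 • Pi.single p 1 : Fin (n + 1) → K) i * x i =
            (if i = c.1 then x i else 0) - (if i = p then x c.1 * x i else 0) := by
          intro i
          rw [Pi.sub_apply, Pi.smul_apply, sub_mul, Pi.single_apply, Pi.single_apply]
          congr 1
          · split_ifs <;> simp
          · split_ifs <;> simp
        simp only [h4]
        rw [Finset.sum_sub_distrib, Finset.sum_ite_eq', Finset.sum_ite_eq']
        simp [hp]
      · have h3 := (hOP R K n 0 (τ c.1 c.2) (τ p c.2) 0 0 1 (-(x c.1)) x).2.2.2.1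
        rw [h3, one_smul, neg_smul, ← sub_eq_add_neg]
        rfl
    · rcases hw' with rfl | hw'
      · apply Submodule.subset_span
        left
        refine ⟨(D', 0), 0, 0, Submodule.zero_mem _, Sym_D hS, ?_⟩
        funext i
        simp [opV]
      · rw [Set.mem_singleton_iff] at hw'
        apply Submodule.subset_span
        right
        exact hw'

/-- the minor of the gradients is injective -/
theorem gJ_inj {A : Finset ι} (F : Tup ι K n) (x : Fin (n + 1) → K) (J : A → Fin (n + 1))
    (hJ : gJ F x J ≠ 0) (u : A → K)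
    (h : ∀ i : A, ∑ z : A, eval x (pderiv (J z) (F i)) * u z = 0) : u = 0 := by
  unfold gJ at hJ
  letI := Classical.decEq ι
  refine Matrix.eq_zero_of_mulVec_eq_zero hJ ?_
  funext i
  exact h i

end Lin

end Pool.Agent.H35.VMP
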